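import Pool.Agent.K7.H25.SB.Util

set_option autoImplicit false

open scoped MeasureTheory ENNReal Topology InnerProductSpace
open MeasureTheory Set Filter Metric

namespace Pool.Agent.K7.H25.SB

open Pool.Agent.R154.Steiner

theorem stBase (hT : StTri) : StBase := by
  classical
  -- `u = (1, 0)`, `n = (√3/2, 1/2)`
  let u : Pl := !₂[1, 0]
  let n : Pl := !₂[Real.sqrt 3 / 2, 1 / 2]
  have h3 : Real.sqrt 3 ^ 2 = 3 := Real.sq_sqrt (by norm_num)
  have hu : ‖u‖ = 1 := by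
    rw [EuclideanSpace.norm_eq, Fin.sum_univ_two]
    simp [u]
  have hn : ‖n‖ = 1 := by
    rw [EuclideanSpace.norm_eq, Fin.sum_univ_two]
    have : ‖n 0‖ ^ 2 + ‖n 1‖ ^ 2 = 1 := by
      simp only [n, Real.norm_eq_abs, sq_abs]
      show (Real.sqrt 3 / 2) ^ 2 + (1 / 2) ^ 2 = 1
      rw [div_pow, h3]; norm_num
    rw [this, Real.sqrt_one]
  have hun : ⟪u, n⟫_ℝ = Real.sqrt 3 / 2 := by
    rw [PiLp.inner_apply, Fin.sum_univ_two]
    simp [u, n]
  have hseg : segment ℝ (-(4 : ℝ) • u) 0 ∪ segment ℝ 0 ((1 : ℝ) • u) =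
      segment ℝ ((0 : Pl) + (-4 : ℝ) • u) ((0 : Pl) + (1 : ℝ) • u) := by
    ext x
    have e1 : segment ℝ (-(4 : ℝ) • u) 0 = segment ℝ ((0 : Pl) + (-4 : ℝ) • u) ((0 : Pl) + (0 : ℝ) • u) := by
      simp
    have e2 : segment ℝ 0 ((1 : ℝ) • u) = segment ℝ ((0 : Pl) + (0 : ℝ) • u) ((0 : Pl) + (1 : ℝ) • u) := by
      simp
    rw [e1, e2, mem_union, mem_seg (by norm_num), mem_seg (by norm_num), mem_seg (by norm_num)]
    constructor
    · rintro (⟨σ, hσ, rfl⟩ | ⟨σ, hσ, rfl⟩)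
      · exact ⟨σ, ⟨hσ.1, by linarith [hσ.2]⟩, rfl⟩
      · exact ⟨σ, ⟨by linarith [hσ.1], hσ.2⟩, rfl⟩
    · rintro ⟨σ, hσ, rfl⟩
      rcases le_total σ 0 with h | h
      · exact Or.inl ⟨σ, ⟨hσ.1, h⟩, rfl⟩
      · exact Or.inr ⟨σ, ⟨h, hσ.2⟩, rfl⟩
  have hd : dist (-(4 : ℝ) • u) ((1 : ℝ) • u) = 5 := by
    rw [dist_eq_norm, ← sub_smul, norm_smul, hu]; norm_num
  refine ⟨{-(4 : ℝ) • u}, segment ℝ (-(4 : ℝ) • u) 0, 0, u, n, 1, 1, ?_⟩
  refine ⟨finite_singleton _, singleton_nonempty _, hu, hn, hun, one_pos, le_rfl, isClosed_seg _ _,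
    conn_seg _ _, ?_, ?_, ?_, ?_, ?_, ?_⟩
  · rw [singleton_subset_iff]; exact left_mem_segment _ _ _
  · intro x hx
    rw [mem_singleton_iff] at hx
    rw [hx, dist_zero_right, norm_smul, hu]; norm_num
  · ext x
    have e1 : segment ℝ (-(4 : ℝ) • u) 0 = segment ℝ (0 - (4 : ℝ) • u) 0 := by simp
    rw [e1, mem_inter_iff, mem_segm (by norm_num), mem_segm (by norm_num)]
    constructor
    · rintro ⟨⟨σ, hσ, rfl⟩, h⟩
      refine ⟨σ, ⟨hσ.1, ?_⟩, rfl⟩
      rw [mem_closedBall, dist_zero_right, zero_sub, norm_neg, norm_smul, hu, mul_one,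
        Real.norm_of_nonneg hσ.1] at h
      exact h
    · rintro ⟨σ, hσ, rfl⟩
      refine ⟨⟨σ, ⟨hσ.1, by linarith [hσ.2]⟩, rfl⟩, ?_⟩
      rw [mem_closedBall, dist_zero_right, zero_sub, norm_neg, norm_smul, hu, mul_one,
        Real.norm_of_nonneg hσ.1]
      exact hσ.2
  · have e0 : (0 : Pl) + (1 : ℝ) • u = (1 : ℝ) • u := zero_add _
    rw [e0, hseg]
    have e1 : (0 : Pl) + (-4 : ℝ) • u = -(4 : ℝ) • u := by simp
    rw [e0, e1]
    have hH : μH[1] (segment ℝ (-(4 : ℝ) • u) ((1 : ℝ) • u)) = ENNReal.ofReal 5 := by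
      rw [H_seg, hd]
    have hmin : ∀ T : Set Pl, IsClosed T → IsConnected T → insert ((1 : ℝ) • u) {-(4 : ℝ) • u} ⊆ T →
        μH[1] (segment ℝ (-(4 : ℝ) • u) ((1 : ℝ) • u)) ≤ μH[1] T := by
      intro T _ h2 h3
      rw [hH, ← hd]
      exact H_conn h2.isPreconnected (h3 (mem_insert_of_mem _ rfl)) (h3 (mem_insert _ _))
    have hsub : insert ((1 : ℝ) • u) {-(4 : ℝ) • u} ⊆ segment ℝ (-(4 : ℝ) • u) ((1 : ℝ) • u) := by
      intro x hx
      rcases hx with rfl | hx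
      · exact right_mem_segment _ _ _
      · rw [mem_singleton_iff] at hx
        rw [hx]; exact left_mem_segment _ _ _
    refine ⟨⟨isClosed_seg _ _, conn_seg _ _, hsub, by rw [hH]; exact ENNReal.ofReal_lt_top, hmin⟩, ?_⟩
    rintro T ⟨t1, t2, t3, t4, t5⟩
    have h5 : μH[1] T ≤ ENNReal.ofReal 5 := by
      rw [← hH]; exact t5 _ (isClosed_seg _ _) (conn_seg _ _) hsub
    obtain ⟨y, hy1, hy2⟩ := hT T (-(4 : ℝ) • u) ((1 : ℝ) • u) ((1 : ℝ) • u)
      (compact_of_finite t1 t2.isPreconnected t4.ne) t2.isPreconnected t4.ne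
      (t3 (mem_insert_of_mem _ rfl)) (t3 (mem_insert _ _)) (t3 (mem_insert _ _))
    have h6 : dist (-(4 : ℝ) • u) y + dist y ((1 : ℝ) • u) + dist y ((1 : ℝ) • u) ≤ 5 :=
      (ENNReal.ofReal_le_ofReal_iff (by norm_num)).mp (hy1.trans h5)
    have h7 := dist_triangle (-(4 : ℝ) • u) y ((1 : ℝ) • u)
    rw [hd] at h7
    have h8 : dist y ((1 : ℝ) • u) = 0 := by
      have := dist_nonneg (x := y) (y := (1 : ℝ) • u)
      linarith
    have h9 : y = (1 : ℝ) • u := dist_eq_zero.mp h8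
    rw [h9, dist_self, add_zero, add_zero, hd, segment_same, union_assoc, union_self] at hy2
    rw [hy2 h5]
    exact union_eq_left.mpr (singleton_subset_iff.mpr (right_mem_segment _ _ _))
  · intro x hx
    rw [mem_singleton_iff] at hx
    rw [hx, dist_eq_norm]
    have h1 : ‖(-(4 : ℝ) • u) - (0 - n)‖ ^ 2 = 17 - 4 * Real.sqrt 3 := by
      have : (-(4 : ℝ) • u) - (0 - n) = n - (4 : ℝ) • u := by rw [neg_smul]; abel
      rw [this, norm_sub_sq_real, hn, norm_smul, hu, real_inner_smul_right, real_inner_comm, hun]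
      norm_num; ring
    have h2 : Real.sqrt 3 < 2 := by nlinarith [Real.sqrt_nonneg 3]
    by_contra hcon
    push Not at hcon
    nlinarith [norm_nonneg ((-(4 : ℝ) • u) - (0 - n))]
  · intro b hb
    exact absurd hb (Finset.notMem_empty b)

end Pool.Agent.K7.H25.SB
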