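import Pool.Agent.K7.H25.SB.Util

set_option autoImplicit false

open scoped MeasureTheory ENNReal Topology InnerProductSpace
open MeasureTheory Set Filter Metric

namespace Pool.Agent.K7.H25.SB

open Pool.Agent.R154.Steiner

lemma mem_body {m : ℕ} (y : Fin m × Bool → Pl) (σ : Fin m × Bool) : y σ ∈ body y := by
  obtain ⟨k, β⟩ := σ
  refine mem_iUnion.mpr ⟨k, ?_⟩
  cases β
  · exact left_mem_segment ℝ _ _
  · exact right_mem_segment ℝ _ _

lemma len_nonneg {m : ℕ} (y : Fin m × Bool → Pl) : 0 ≤ len y :=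
  Finset.sum_nonneg fun _ _ => dist_nonneg

lemma continuous_len {m : ℕ} : Continuous (fun y : Fin m × Bool → Pl => len y) := by
  unfold len
  exact continuous_finset_sum _ fun k _ => (continuous_apply _).dist (continuous_apply _)

/-- any two endpoints of a connected network have distance at most its length -/
lemma dist_le_len {m : ℕ} {y : Fin (m + 1) × Bool → Pl} (hy : Conn y) (σ τ : Fin (m + 1) × Bool) :
    dist (y σ) (y τ) ≤ len y := by
  have h := H_conn (body_connected hy).isPreconnected (mem_body y σ) (mem_body y τ)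
  exact (ENNReal.ofReal_le_ofReal_iff (len_nonneg y)).mp (h.trans (body_len y))

theorem stNear : StNear := by
  intro A₀ S q hfin hU r hr
  obtain ⟨⟨hScl, hScon, hSsub, hSfin, hSmin⟩, hSuniq⟩ := hU
  by_contra hcon
  push Not at hcon
  have h1 : ∀ k : ℕ, ∃ p₁ p₂ : Pl, ∃ T : Set Pl, ∃ x : Pl, dist p₁ q < 1 / ((k : ℝ) + 1) ∧
      dist p₂ q < 1 / ((k : ℝ) + 1) ∧ IsSteinerTree (insert p₁ (insert p₂ A₀)) T ∧ x ∈ T ∧
      ∀ y ∈ S, r < dist x y := by
    intro k
    obtain ⟨p₁, p₂, e1, e2, T, e3, x, e4, e5⟩ := hcon (1 / ((k : ℝ) + 1)) (by positivity)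
    exact ⟨p₁, p₂, T, x, e1, e2, e3, e4, e5⟩
  choose p₁ p₂ T x hp1 hp2 hT hxT hxS using h1
  have hqS : q ∈ S := hSsub (mem_insert _ _)
  -- the lengths
  have hTH : ∀ k, (μH[1] (T k)).toReal ≤ (μH[1] S).toReal + 2 / ((k : ℝ) + 1) := by
    intro k
    have e1 : IsConnected (S ∪ segment ℝ q (p₁ k) ∪ segment ℝ q (p₂ k)) := by
      refine IsConnected.union ⟨q, Or.inl hqS, left_mem_segment _ _ _⟩ ?_ (conn_seg _ _)
      exact IsConnected.union ⟨q, hqS, left_mem_segment _ _ _⟩ hScon (conn_seg _ _)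
    have e2 := (hT k).2.2.2.2 (S ∪ segment ℝ q (p₁ k) ∪ segment ℝ q (p₂ k))
      ((hScl.union (isClosed_seg _ _)).union (isClosed_seg _ _)) e1 (by
        intro z hz
        rcases hz with rfl | rfl | hz
        · exact Or.inl (Or.inr (right_mem_segment _ _ _))
        · exact Or.inr (right_mem_segment _ _ _)
        · exact Or.inl (Or.inl (hSsub (mem_insert_of_mem _ hz))))
    have e3 : μH[1] (T k) ≤ μH[1] S + ENNReal.ofReal (2 / ((k : ℝ) + 1)) := by
      calc μH[1] (T k) ≤ μH[1] S + μH[1] (segment ℝ q (p₁ k)) + μH[1] (segment ℝ q (p₂ k)) :=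
            e2.trans ((measure_union_le _ _).trans (add_le_add_left (measure_union_le _ _) _))
        _ ≤ μH[1] S + ENNReal.ofReal (1 / ((k : ℝ) + 1)) + ENNReal.ofReal (1 / ((k : ℝ) + 1)) := by
            rw [H_seg, H_seg, dist_comm q, dist_comm q]
            gcongr
            · exact (hp1 k).le
            · exact (hp2 k).le
        _ = μH[1] S + ENNReal.ofReal (2 / ((k : ℝ) + 1)) := by
            rw [add_assoc, ← ENNReal.ofReal_add (by positivity) (by positivity)]
            congr 2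
            ring
    have e4 := ENNReal.toReal_mono (ENNReal.add_ne_top.mpr ⟨hSfin.ne, ENNReal.ofReal_ne_top⟩) e3
    rwa [ENNReal.toReal_add hSfin.ne ENNReal.ofReal_ne_top,
      ENNReal.toReal_ofReal (by positivity)] at e4
  obtain ⟨m, a, -, ha⟩ := hfin.fin_param
  -- networks
  have h2 : ∀ k, ∃ y : Fin (2 * (m + 2) + 1) × Bool → Pl, Conn y ∧ (∃ σ, y σ = p₁ k) ∧
      (∃ σ, y σ = x k) ∧ (∀ i, ∃ σ, y σ = a i) ∧ len y ≤ (μH[1] (T k)).toReal := by
    intro k
    have hTc := compact_of_finite (hT k).1 (hT k).2.1.isPreconnected (hT k).2.2.2.1.ne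
    obtain ⟨y, e1, e2, e3⟩ := exists_net hTc (hT k).2.1.isPreconnected (hT k).2.2.2.1.ne
      (Fin.cons (p₁ k) (Fin.cons (x k) a) : Fin (m + 2) → Pl) (by
        intro i
        refine Fin.cases ?_ (fun i => ?_) i
        · simpa using (hT k).2.2.1 (mem_insert _ _)
        · refine Fin.cases ?_ (fun i => ?_) i
          · simpa using hxT k
          · simp only [Fin.cons_succ]
            refine (hT k).2.2.1 (mem_insert_of_mem _ (mem_insert_of_mem _ ?_))
            rw [← ha]; exact mem_range_self i) (x k) (hxT k)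
    refine ⟨y, e1, by simpa using e2 0, by simpa using e2 (Fin.succ 0), fun i => ?_, e3⟩
    simpa using e2 (Fin.succ (Fin.succ i))
  choose y hy1 hy2 hy3 hy4 hy5 using h2
  set R : ℝ := (μH[1] S).toReal + 3 with hR
  have hk1 : ∀ k : ℕ, 1 / ((k : ℝ) + 1) ≤ 1 := by
    intro k
    rw [div_le_one (by positivity)]
    have : (0 : ℝ) ≤ k := Nat.cast_nonneg k
    linarith
  have hyR : ∀ k σ, dist (y k σ) q ≤ R := by
    intro k σ
    obtain ⟨τ, hτ⟩ := hy2 k
    have e1 := dist_le_len (hy1 k) σ τ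
    rw [hτ] at e1
    have e2 := hTH k
    have e3 := hy5 k
    have e4 := (hp1 k).le
    have e5 := hk1 k
    have e6 : 2 / ((k : ℝ) + 1) = 2 * (1 / ((k : ℝ) + 1)) := by ring
    calc dist (y k σ) q ≤ dist (y k σ) (p₁ k) + dist (p₁ k) q := dist_triangle _ _ _
      _ ≤ R := by rw [hR]; linarith
  -- the closed set
  let C : Set ((Fin (2 * (m + 2) + 1) × Bool → Pl) × Pl × Pl) :=
    {w | Conn w.1 ∧ (∃ σ, w.1 σ = w.2.1) ∧ (∃ σ, w.1 σ = w.2.2) ∧ ∀ i, ∃ σ, w.1 σ = a i}
  have hC : IsClosed C := by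
    have c1 : IsClosed {w : (Fin (2 * (m + 2) + 1) × Bool → Pl) × Pl × Pl | Conn w.1} :=
      isClosed_conn.preimage continuous_fst
    have c2 : IsClosed {w : (Fin (2 * (m + 2) + 1) × Bool → Pl) × Pl × Pl | ∃ σ, w.1 σ = w.2.1} := by
      rw [setOf_exists]
      exact isClosed_iUnion_of_finite fun σ =>
        isClosed_eq ((continuous_apply σ).comp continuous_fst) (continuous_fst.comp continuous_snd)
    have c3 : IsClosed {w : (Fin (2 * (m + 2) + 1) × Bool → Pl) × Pl × Pl | ∃ σ, w.1 σ = w.2.2} := by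
      rw [setOf_exists]
      exact isClosed_iUnion_of_finite fun σ =>
        isClosed_eq ((continuous_apply σ).comp continuous_fst) (continuous_snd.comp continuous_snd)
    have c4 : IsClosed {w : (Fin (2 * (m + 2) + 1) × Bool → Pl) × Pl × Pl |
        ∀ i, ∃ σ, w.1 σ = a i} := by
      rw [setOf_forall]
      refine isClosed_iInter fun i => ?_
      rw [setOf_exists]
      exact isClosed_iUnion_of_finite fun σ =>
        isClosed_eq ((continuous_apply σ).comp continuous_fst) continuous_const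
    exact c1.inter (c2.inter (c3.inter c4))
  have hKc : IsCompact ((Set.pi univ fun _ : Fin (2 * (m + 2) + 1) × Bool => closedBall q R) ×ˢ
      (closedBall q R ×ˢ closedBall q R)) :=
    (isCompact_univ_pi fun _ => isCompact_closedBall q R).prod
      ((isCompact_closedBall q R).prod (isCompact_closedBall q R))
  have hmem : ∀ k, (y k, p₁ k, x k) ∈
      ((Set.pi univ fun _ : Fin (2 * (m + 2) + 1) × Bool => closedBall q R) ×ˢ
      (closedBall q R ×ˢ closedBall q R)) := by
    intro k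
    refine ⟨fun σ _ => hyR k σ, ?_, ?_⟩
    · obtain ⟨τ, hτ⟩ := hy2 k
      show p₁ k ∈ closedBall q R
      rw [← hτ]; exact hyR k τ
    · obtain ⟨τ, hτ⟩ := hy3 k
      show x k ∈ closedBall q R
      rw [← hτ]; exact hyR k τ
  obtain ⟨⟨Y, P, X⟩, -, φ, hφ, hlim⟩ := hKc.tendsto_subseq hmem
  have hYC : (Y, P, X) ∈ C := hC.mem_of_tendsto hlim (Eventually.of_forall fun k =>
    ⟨hy1 _, hy2 _, hy3 _, hy4 _⟩)
  have hlimY : Tendsto (fun k => y (φ k)) atTop (𝓝 Y) :=
    (continuous_fst.tendsto _).comp hlim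
  have hlimP : Tendsto (fun k => p₁ (φ k)) atTop (𝓝 P) :=
    ((continuous_fst.comp continuous_snd).tendsto _).comp hlim
  have hlimX : Tendsto (fun k => x (φ k)) atTop (𝓝 X) :=
    ((continuous_snd.comp continuous_snd).tendsto _).comp hlim
  have hzero : Tendsto (fun k : ℕ => 1 / ((φ k : ℝ) + 1)) atTop (𝓝 0) :=
    tendsto_one_div_add_atTop_nhds_zero_nat.comp hφ.tendsto_atTop
  have hPq : P = q := by
    have e1 : Tendsto (fun k => p₁ (φ k)) atTop (𝓝 q) := by
      rw [tendsto_iff_dist_tendsto_zero]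
      exact squeeze_zero (fun _ => dist_nonneg) (fun k => (hp1 (φ k)).le) hzero
    exact tendsto_nhds_unique hlimP e1
  have hlenY : len Y ≤ (μH[1] S).toReal := by
    have e1 : Tendsto (fun k => len (y (φ k))) atTop (𝓝 (len Y)) :=
      (continuous_len.tendsto _).comp hlimY
    have e2 : Tendsto (fun k : ℕ => (μH[1] S).toReal + 2 * (1 / ((φ k : ℝ) + 1))) atTop
        (𝓝 ((μH[1] S).toReal + 2 * 0)) := (hzero.const_mul 2).const_add _
    have e3 := le_of_tendsto_of_tendsto' e1 e2 fun k => by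
      have := (hy5 (φ k)).trans (hTH (φ k))
      have e6 : 2 / ((φ k : ℝ) + 1) = 2 * (1 / ((φ k : ℝ) + 1)) := by ring
      rw [e6] at this
      exact this
    simpa using e3
  obtain ⟨hc1, ⟨σ2, hσ2⟩, ⟨σ3, hσ3⟩, hc4⟩ := hYC
  have hYS : body Y = S := by
    have hle : μH[1] (body Y) ≤ μH[1] S := by
      calc μH[1] (body Y) ≤ ENNReal.ofReal (len Y) := body_len Y
        _ ≤ ENNReal.ofReal (μH[1] S).toReal := ENNReal.ofReal_le_ofReal hlenY
        _ = μH[1] S := ENNReal.ofReal_toReal hSfin.ne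
    refine hSuniq _ ⟨(body_compact Y).isClosed, body_connected hc1, ?_,
      lt_of_le_of_lt hle hSfin, fun Z e1 e2 e3 => hle.trans (hSmin Z e1 e2 e3)⟩
    intro z hz
    rcases hz with rfl | hz
    · rw [← hPq]
      have : Y σ2 = P := hσ2
      rw [← this]
      exact mem_body Y σ2
    · rw [← ha] at hz
      obtain ⟨i, rfl⟩ := hz
      obtain ⟨σ, hσ⟩ := hc4 i
      have : Y σ = a i := hσ
      rw [← this]
      exact mem_body Y σ
  have hXS : X ∈ S := by
    rw [← hYS]
    have : Y σ3 = X := hσ3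
    rw [← this]
    exact mem_body Y σ3
  have e1 : Tendsto (fun k => dist (x (φ k)) X) atTop (𝓝 0) := tendsto_iff_dist_tendsto_zero.mp hlimX
  have e2 : r ≤ 0 := ge_of_tendsto' e1 fun k => (hxS (φ k) X hXS).le
  linarith

end Pool.Agent.K7.H25.SB
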