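import Pool.Agent.K7.H25.SB.Step
import Pool.Agent.K7.H25.SB.Near
import Pool.Agent.K7.H25.SB.Base
import Pool.Agent.K7.H10.SB_NEAR1
import Pool.Agent.K7.H15.SB_IND
import Pool.Agent.K7.H60.SB_ALL
import Pool.Agent.K7.H60.SB_PLANE
import Pool.Agent.K7.H66.SB_CUT
import Pool.Agent.K7.H66.SB_TRUNC
import Pool.Agent.K7.H68.SB_MEL
import Pool.Agent.K7.H68.SB_TRI
import Pool.Agent.K7.H88.SB_TWO
import Pool.Agent.K7.H94.SB_SINGLE

set_option autoImplicit false

namespace Pool.Agent.K7.H25.SB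

/-- arbitrarily many branching points in a terminal-free ball, in every dimension `≥ 2` -/
theorem all : StAll :=
  H60.SB.stAll (H60.SB.stPlane (stBase H68.SB.stTri)
    (H15.SB.ind (stStep H10.SB.stExist H66.SB.stCut (H94.SB.stSingle H88.SB.two H66.SB.stSurg)
      H68.SB.stTri stNear H68.SB.stMel H66.SB.stTrunc))
    H66.SB.stTrunc H15.SB.stBr)

end Pool.Agent.K7.H25.SB
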