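import Pool.Agent.K7.H25.SB.Util

set_option autoImplicit false

open scoped MeasureTheory ENNReal Topology InnerProductSpace
open MeasureTheory Set Filter Metric

namespace Pool.Agent.K7.H25.SB

open Pool.Agent.R154.Steiner

lemma exists_perp (u : Pl) (hu : ‖u‖ = 1) : ∃ w : Pl, ‖w‖ = 1 ∧ ⟪u, w⟫_ℝ = 0 := by
  refine ⟨!₂[-(u 1), u 0], ?_, ?_⟩
  · rw [EuclideanSpace.norm_eq, Fin.sum_univ_two] at hu ⊢
    have h : ‖(!₂[-(u 1), u 0] : Pl) 0‖ ^ 2 + ‖(!₂[-(u 1), u 0] : Pl) 1‖ ^ 2 =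
        ‖u 0‖ ^ 2 + ‖u 1‖ ^ 2 := by
      simp [add_comm]
    rw [h, hu]
  · rw [PiLp.inner_apply, Fin.sum_univ_two]
    simp
    ring

/-- the level function -/
lemma lev_add (q u d : Pl) (_hu : ‖u‖ = 1) (σ : ℝ) : ⟪q - (q + σ • d), u⟫_ℝ = -σ * ⟪d, u⟫_ℝ := by
  rw [sub_add_cancel_left, inner_neg_left, real_inner_smul_left]; ring

lemma inner_tu {u t v : Pl} (hu : ‖u‖ = 1) (ht : ‖t‖ = 1) (hv : ‖v‖ = 1) (h : t + v = u) :
    ⟪t, v⟫_ℝ = -1 / 2 ∧ ⟪t, u⟫_ℝ = 1 / 2 ∧ ⟪v, u⟫_ℝ = 1 / 2 := by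
  have h1 : ‖t + v‖ ^ 2 = ‖t‖ ^ 2 + 2 * ⟪t, v⟫_ℝ + ‖v‖ ^ 2 := norm_add_sq_real t v
  rw [h, hu, ht, hv] at h1
  have h2 : ⟪t, v⟫_ℝ = -1 / 2 := by linarith
  refine ⟨h2, ?_, ?_⟩
  · rw [← h, inner_add_right, real_inner_self_eq_norm_sq, ht, h2]; norm_num
  · rw [← h, inner_add_right, real_inner_self_eq_norm_sq, hv, real_inner_comm, h2]; norm_num

/-- the equality case of the tripod -/
lemma tripod_eq {q u t v y : Pl} {τ s M : ℝ} (hu : ‖u‖ = 1) (ht : ‖t‖ = 1) (hv : ‖v‖ = 1)
    (h : t + v = u) 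
    (hle : dist (q - τ • u) y + dist y (q + s • t) + dist y (q + M • v) ≤ τ + s + M) : y = q := by
  obtain ⟨htv, htu, hvu⟩ := inner_tu hu ht hv h
  have e1 : ⟪y - (q - τ • u), u⟫_ℝ ≤ dist (q - τ • u) y := by
    have := real_inner_le_norm (y - (q - τ • u)) u
    rw [hu, mul_one, ← dist_eq_norm, dist_comm] at this
    exact this
  have e2 : ⟪(q + s • t) - y, t⟫_ℝ ≤ dist y (q + s • t) := by
    have := real_inner_le_norm ((q + s • t) - y) t
    rw [ht, mul_one, ← dist_eq_norm, dist_comm] at this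
    exact this
  have e3 : ⟪(q + M • v) - y, v⟫_ℝ ≤ dist y (q + M • v) := by
    have := real_inner_le_norm ((q + M • v) - y) v
    rw [hv, mul_one, ← dist_eq_norm, dist_comm] at this
    exact this
  set d := y - q with hd
  have f1 : y - (q - τ • u) = d + τ • u := by rw [hd]; abel
  have f2 : (q + s • t) - y = s • t - d := by rw [hd]; abel
  have f3 : (q + M • v) - y = M • v - d := by rw [hd]; abel
  have g1 : ⟪y - (q - τ • u), u⟫_ℝ = ⟪d, u⟫_ℝ + τ := by
    rw [f1, inner_add_left, real_inner_smul_left, real_inner_self_eq_norm_sq, hu]; ring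
  have g2 : ⟪(q + s • t) - y, t⟫_ℝ = s - ⟪d, t⟫_ℝ := by
    rw [f2, inner_sub_left, real_inner_smul_left, real_inner_self_eq_norm_sq, ht]; ring
  have g3 : ⟪(q + M • v) - y, v⟫_ℝ = M - ⟪d, v⟫_ℝ := by
    rw [f3, inner_sub_left, real_inner_smul_left, real_inner_self_eq_norm_sq, hv]; ring
  have g4 : ⟪d, u⟫_ℝ = ⟪d, t⟫_ℝ + ⟪d, v⟫_ℝ := by rw [← h, inner_add_right]
  have k1 : dist (q - τ • u) y = ⟪d, u⟫_ℝ + τ := by linarith
  have k2 : dist y (q + s • t) = s - ⟪d, t⟫_ℝ := by linarith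
  -- `d + τ u` has norm `⟪d + τ u, u⟫`, so it is a multiple of `u`; similarly for `t`
  have m1 : ‖d + τ • u‖ = ⟪d + τ • u, u⟫_ℝ := by
    rw [← f1, ← dist_eq_norm, dist_comm, k1, g1]
  have m2 : ‖s • t - d‖ = ⟪s • t - d, t⟫_ℝ := by
    rw [← f2, ← dist_eq_norm, dist_comm, k2, g2]
  have key : ∀ x w : Pl, ‖w‖ = 1 → ‖x‖ = ⟪x, w⟫_ℝ → x = ‖x‖ • w := by
    intro x w hw hx
    have : ‖x - ‖x‖ • w‖ ^ 2 = 0 := by
      rw [norm_sub_sq_real, norm_smul, real_inner_smul_right, ← hx, hw, norm_norm]; ring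
    have := pow_eq_zero_iff (two_ne_zero) |>.mp this
    exact sub_eq_zero.mp (norm_eq_zero.mp this)
  have n1 := key _ u hu m1
  have n2 := key _ t ht m2
  set α := ‖d + τ • u‖
  set β := ‖s • t - d‖
  have p1 : d = (α - τ) • u := by rw [sub_smul, ← n1]; abel
  have p2 : d = (s - β) • t := by rw [sub_smul, ← n2]; abel
  have p3 : (α - τ) = (s - β) / 2 := by
    have : ⟪d, u⟫_ℝ = ⟪(s - β) • t, u⟫_ℝ := by rw [← p2]
    rw [p1, real_inner_smul_left, real_inner_smul_left, real_inner_self_eq_norm_sq, hu, htu] at this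
    linarith
  have p4 : (s - β) = (α - τ) / 2 := by
    have : ⟪d, t⟫_ℝ = ⟪(α - τ) • u, t⟫_ℝ := by rw [← p1]
    rw [p2, real_inner_smul_left, real_inner_smul_left, real_inner_self_eq_norm_sq, ht,
      real_inner_comm, htu] at this
    linarith
  have p5 : α - τ = 0 := by linarith
  have : d = 0 := by rw [p1, p5, zero_smul]
  rw [hd] at this
  exact sub_eq_zero.mp this

theorem stStep (hE : StExist) (hC : StCut) (hSi : StSingle) (hT : StTri) (hN : StNear)
    (hM : StMel) (hTr : StTrunc) : StStep := by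
  intro A₀ S₀ q u t v κ δ hfin hne hu ht hv htv hκ hκδ hcl hcon hsub hfar hloc huniq
  have hδ : 0 < δ := lt_of_lt_of_le hκ hκδ
  obtain ⟨htv', htu, hvu⟩ := inner_tu hu ht hv htv
  have hqS : q ∈ S₀ := by
    have : q ∈ S₀ ∩ closedBall q (2 * δ) := by rw [hloc]; exact right_mem_segment _ _ _
    exact this.1
  have hU0 : Uniq (insert q A₀) S₀ := by
    have := hTr A₀ S₀ q u κ δ 0 hu hκ hκδ le_rfl hκ.le hcl hcon hsub hloc huniq
    simpa [segment_same, insert_eq_of_mem hqS] using this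
  obtain ⟨η₀, hη₀, hnear⟩ := hN A₀ S₀ q hfin hU0 (δ / 20) (by positivity)
  refine ⟨min η₀ (κ / 2), lt_min hη₀ (by positivity), ?_⟩
  intro s M hs hsη hM0 hMη
  have hs1 : s < η₀ := lt_of_lt_of_le hsη (min_le_left _ _)
  have hs2 : s < κ / 2 := lt_of_lt_of_le hsη (min_le_right _ _)
  have hM1 : M < η₀ := lt_of_lt_of_le hMη (min_le_left _ _)
  have hM2 : M < κ / 2 := lt_of_lt_of_le hMη (min_le_right _ _)
  set p₁ : Pl := q + s • t with hp₁
  set p₂ : Pl := q + M • v with hp₂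
  set e : Pl := q + (s + M) • u with he
  have hd1 : dist p₁ q = s := by
    rw [hp₁, dist_eq_norm, add_sub_cancel_left, norm_smul, ht, Real.norm_of_nonneg hs.le, mul_one]
  have hd2 : dist p₂ q = M := by
    rw [hp₂, dist_eq_norm, add_sub_cancel_left, norm_smul, hv, Real.norm_of_nonneg hM0.le, mul_one]
  -- the candidate
  set S' : Set Pl := S₀ ∪ segment ℝ q p₁ ∪ segment ℝ q p₂ with hS'
  have hS'cl : IsClosed S' := (hcl.union (isClosed_seg _ _)).union (isClosed_seg _ _)
  have hS'con : IsConnected S' := by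
    refine IsConnected.union ⟨q, Or.inl hqS, left_mem_segment _ _ _⟩ ?_ (conn_seg _ _)
    exact IsConnected.union ⟨q, hqS, left_mem_segment _ _ _⟩ hcon (conn_seg _ _)
  have hS'sub : insert p₁ (insert p₂ A₀) ⊆ S' := by
    intro x hx
    rcases hx with rfl | rfl | hx
    · exact Or.inl (Or.inr (right_mem_segment _ _ _))
    · exact Or.inr (right_mem_segment _ _ _)
    · exact Or.inl (Or.inl (hsub hx))
  have hS'H : μH[1] S' ≤ μH[1] S₀ + ENNReal.ofReal (s + M) := by
    calc μH[1] S' ≤ μH[1] S₀ + μH[1] (segment ℝ q p₁) + μH[1] (segment ℝ q p₂) :=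
          (measure_union_le _ _).trans (add_le_add_left (measure_union_le _ _) _)
      _ = μH[1] S₀ + ENNReal.ofReal (s + M) := by
          rw [H_seg, H_seg, dist_comm q p₁, dist_comm q p₂, hd1, hd2, ENNReal.ofReal_add hs.le hM0.le,
            add_assoc]
  -- the segment `[q, e]`
  have hUe : Uniq (insert e A₀) (S₀ ∪ segment ℝ q e) :=
    hTr A₀ S₀ q u κ δ (s + M) hu hκ hκδ (by positivity) (by linarith) hcl hcon hsub hloc huniq
  have hqe : ∀ x ∈ segment ℝ q e, ∃ σ ∈ Icc 0 (s + M), x = q + σ • u := fun x hx =>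
    (mem_seg0 (by positivity)).mp hx
  have hSe0 : μH[1] (S₀ ∩ segment ℝ q e) = 0 := by
    refine measure_mono_null (t := {q}) ?_ (noAtom q)
    rintro x ⟨hx1, hx2⟩
    obtain ⟨σ, hσ, rfl⟩ := hqe x hx2
    have h1 : q + σ • u ∈ S₀ ∩ closedBall q (2 * δ) := by
      refine ⟨hx1, ?_⟩
      rw [mem_closedBall, dist_eq_norm, add_sub_cancel_left, norm_smul, hu,
        Real.norm_of_nonneg hσ.1, mul_one]
      linarith [hσ.2]
    rw [hloc, mem_segm (by positivity)] at h1
    obtain ⟨σ', hσ', h2⟩ := h1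
    have h3 : (σ + σ') • u = 0 := by
      rw [add_smul]
      have : σ • u = - (σ' • u) := by
        have := congrArg (fun x => x - q) h2
        simpa using this
      rw [this]; simp
    have h4 : σ + σ' = 0 := by
      rcases smul_eq_zero.mp h3 with h | h
      · exact h
      · rw [h, norm_zero] at hu; norm_num at hu
    have : σ = 0 := by linarith [hσ.1, hσ'.1]
    simp [this]
  have hSe : μH[1] (S₀ ∪ segment ℝ q e) = μH[1] S₀ + ENNReal.ofReal (s + M) := by
    have h1 := measure_union_add_inter (μ := μH[1]) S₀ (isClosed_seg q e).measurableSet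
    rw [hSe0, add_zero, H_seg] at h1
    rw [h1]
    congr 2
    rw [he, dist_eq_norm, sub_add_cancel_left, norm_neg, norm_smul, hu, mul_one,
      Real.norm_of_nonneg (by positivity)]
  -- the key
  have key : ∀ T : Set Pl, IsSteinerTree (insert p₁ (insert p₂ A₀)) T → T = S' := by
    intro T hTS
    obtain ⟨hTcl, hTcon, hTsub, hTfin, hTmin⟩ := hTS
    have hTc : IsCompact T := compact_of_finite hTcl hTcon.isPreconnected hTfin.ne
    obtain ⟨w, hw, huw⟩ := exists_perp u hu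
    have hp₁T : p₁ ∈ T := hTsub (mem_insert _ _)
    have hp₂T : p₂ ∈ T := hTsub (mem_insert_of_mem _ (mem_insert _ _))
    have hA₀T : ∀ x ∈ A₀, x ∈ T := fun x hx =>
      hTsub (mem_insert_of_mem _ (mem_insert_of_mem _ hx))
    have hl1 : ⟪q - p₁, u⟫_ℝ = -s * (1 / 2) := by rw [hp₁, lev_add q u t hu, htu]
    have hl2 : ⟪q - p₂, u⟫_ℝ = -M * (1 / 2) := by rw [hp₂, lev_add q u v hu, hvu]
    have hnear' : ∀ x ∈ T, dist x q ≤ δ → ∃ σ ∈ Icc 0 (2 * δ), dist x (q - σ • u) ≤ δ / 20 := by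
      intro x hx hxq
      obtain ⟨y, hy, hxy⟩ := hnear p₁ p₂ (by rw [hd1]; exact hs1) (by rw [hd2]; exact hM1) T
        ⟨hTcl, hTcon, hTsub, hTfin, hTmin⟩ x hx
      have h1 : y ∈ S₀ ∩ closedBall q (2 * δ) := by
        refine ⟨hy, ?_⟩
        rw [mem_closedBall]
        calc dist y q ≤ dist y x + dist x q := dist_triangle _ _ _
          _ ≤ δ / 20 + δ := by rw [dist_comm y x]; exact add_le_add hxy hxq
          _ ≤ 2 * δ := by linarith
      rw [hloc, mem_segm (by positivity)] at h1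
      obtain ⟨σ, hσ, rfl⟩ := h1
      exact ⟨σ, hσ, hxy⟩
    obtain ⟨x₀, hx₀⟩ := hne
    obtain ⟨τ, hτ, z, hz⟩ := hSi (insert p₁ (insert p₂ A₀)) T q u w δ (δ / 20) (δ / 10) (δ / 2)
      ⟨hTcl, hTcon, hTsub, hTfin, hTmin⟩ hu hw huw (by positivity) (by linarith) (by linarith)
      (by linarith) (by linarith) (by
        intro x hx hxq
        rcases hx with rfl | rfl | hx
        · rw [hl1]; linarith
        · rw [hl2]; linarith
        · exact absurd (hfar x hx) (by linarith)) hnear'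
      ⟨p₁, hp₁T, by rw [hd1]; linarith, by rw [hl1]; linarith⟩
      ⟨x₀, hA₀T x₀ hx₀, by linarith [hfar x₀ hx₀]⟩
    have hτ0 : 0 < τ := by linarith [hτ.1]
    have hτδ : τ < δ / 2 := hτ.2
    have hlc : Continuous fun x : Pl => ⟪q - x, u⟫_ℝ := by fun_prop
    set F : Set Pl := {x | dist x q ≤ δ ∧ ⟪q - x, u⟫_ℝ ≤ τ} with hF
    set G : Set Pl := {x | dist x q < δ ∧ ⟪q - x, u⟫_ℝ < τ} with hG
    have hdc : Continuous fun x : Pl => dist x q := continuous_id.dist continuous_const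
    have hFcl : IsClosed F := by
      have h1 : IsClosed {x : Pl | dist x q ≤ δ} := isClosed_le hdc continuous_const
      have h2 : IsClosed {x : Pl | ⟪q - x, u⟫_ℝ ≤ τ} := isClosed_le hlc continuous_const
      exact h1.inter h2
    have hGop : IsOpen G := by
      have h1 : IsOpen {x : Pl | dist x q < δ} := isOpen_lt hdc continuous_const
      have h2 : IsOpen {x : Pl | ⟪q - x, u⟫_ℝ < τ} := isOpen_lt hlc continuous_const
      exact h1.inter h2
    have hGF : G ⊆ F := fun x hx => ⟨hx.1.le, hx.2.le⟩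
    -- points of `T` on the sphere have a level `> τ`
    have hsph : ∀ x ∈ T, dist x q = δ → τ < ⟪q - x, u⟫_ℝ := by
      intro x hx hxq
      obtain ⟨σ, hσ, h1⟩ := hnear' x hx hxq.le
      have h2 : δ ≤ dist x (q - σ • u) + σ := by
        calc δ = dist x q := hxq.symm
          _ ≤ dist x (q - σ • u) + dist (q - σ • u) q := dist_triangle _ _ _
          _ = dist x (q - σ • u) + σ := by
            congr 1
            rw [dist_eq_norm, sub_sub_cancel_left, norm_neg, norm_smul, hu,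
              Real.norm_of_nonneg hσ.1, mul_one]
      have h3 : ⟪q - x, u⟫_ℝ = σ - ⟪x - (q - σ • u), u⟫_ℝ := by
        have : q - x = σ • u - (x - (q - σ • u)) := by abel
        rw [this, inner_sub_left, real_inner_smul_left, real_inner_self_eq_norm_sq, hu]; ring
      have h4 : ⟪x - (q - σ • u), u⟫_ℝ ≤ dist x (q - σ • u) := by
        have := real_inner_le_norm (x - (q - σ • u)) u
        rwa [hu, mul_one, ← dist_eq_norm] at this
      rw [h3]
      linarith
    have hTFG : T ∩ (F \ G) = {z} := by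
      rw [← hz]
      ext x
      constructor
      · rintro ⟨hx, ⟨h1, h2⟩, h3⟩
        refine ⟨hx, h1, ?_⟩
        by_contra h4
        apply h3
        refine ⟨lt_of_le_of_ne h1 fun h5 => ?_, lt_of_le_of_ne h2 h4⟩
        exact absurd (hsph x hx h5) (not_lt.mpr h2)
      · rintro ⟨hx, h1, h2⟩
        exact ⟨hx, ⟨h1, h2.le⟩, fun h3 => absurd h3.2 (by rw [h2]; exact lt_irrefl _)⟩
    have hzT : z ∈ T ∩ {x | dist x q ≤ δ ∧ ⟪q - x, u⟫_ℝ = τ} := by rw [hz]; exact mem_singleton z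
    obtain ⟨hzT, hzδ, hzτ⟩ := hzT
    have hzF : z ∈ F := ⟨hzδ, hzτ.le⟩
    have hzG : z ∉ G := fun h => absurd h.2 (by rw [hzτ]; exact lt_irrefl _)
    obtain ⟨hTF, hTG⟩ := hC T F G z hTcl hTcon.isPreconnected hGop hFcl hGF hTFG
    have hp₁F : p₁ ∈ F := ⟨by rw [hd1]; linarith, by rw [hl1]; linarith⟩
    have hp₂F : p₂ ∈ F := ⟨by rw [hd2]; linarith, by rw [hl2]; linarith⟩
    have hTF_ne : μH[1] (T ∩ F) ≠ ⊤ := ne_top_of_le_ne_top hTfin.ne (measure_mono inter_subset_left)
    have hTG_ne : μH[1] (T \ G) ≠ ⊤ := ne_top_of_le_ne_top hTfin.ne (measure_mono diff_subset)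
    obtain ⟨y, hy1, hy2⟩ := hT (T ∩ F) z p₁ p₂ (hTc.inter_right hFcl) hTF hTF_ne ⟨hzT, hzF⟩
      ⟨hp₁T, hp₁F⟩ ⟨hp₂T, hp₂F⟩
    have hsplit : μH[1] (T \ G) + μH[1] (T ∩ F) ≤ μH[1] T := by
      have h1 : μH[1] (T \ G) ≤ μH[1] (T \ F) := by
        have : T \ G ⊆ (T \ F) ∪ {z} := by
          rintro x ⟨hx, hxG⟩
          by_cases hxF : x ∈ F
          · right; rw [← hTFG]; exact ⟨hx, hxF, hxG⟩
          · exact Or.inl ⟨hx, hxF⟩
        calc μH[1] (T \ G) ≤ μH[1] ((T \ F) ∪ {z}) := measure_mono this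
          _ ≤ μH[1] (T \ F) + μH[1] {z} := measure_union_le _ _
          _ = μH[1] (T \ F) := by rw [noAtom, add_zero]
      have h2 := measure_inter_add_diff (μ := μH[1]) T hFcl.measurableSet
      rw [← h2, add_comm]
      exact add_le_add_right h1 _
    have hmel : dist z e ≤ dist z y + dist y p₁ + dist y p₂ :=
      hM q u t v z y s M hu ht hv htv hs.le hM0.le
    set W : Set Pl := (T \ G) ∪ segment ℝ z e with hW
    have hWcl : IsClosed W := (hTcl.sdiff hGop).union (isClosed_seg _ _)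
    have hWcon : IsConnected W := by
      refine IsConnected.union ⟨z, ⟨hzT, hzG⟩, left_mem_segment _ _ _⟩ ⟨⟨z, hzT, hzG⟩, hTG⟩
        (conn_seg _ _)
    have hWsub : insert e A₀ ⊆ W := by
      intro x hx
      rcases hx with rfl | hx
      · exact Or.inr (right_mem_segment _ _ _)
      · exact Or.inl ⟨hA₀T x hx, fun h => absurd h.1 (by linarith [hfar x hx])⟩
    have hWH : μH[1] W ≤ μH[1] (T \ G) + ENNReal.ofReal (dist z e) := by
      rw [← H_seg]; exact measure_union_le _ _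
    have hsumle : ENNReal.ofReal (dist z e) ≤ ENNReal.ofReal (dist z y + dist y p₁ + dist y p₂) :=
      ENNReal.ofReal_le_ofReal hmel
    have c1 : μH[1] T ≤ μH[1] (S₀ ∪ segment ℝ q e) := by
      rw [hSe]
      exact (hTmin S' hS'cl hS'con hS'sub).trans hS'H
    have c2 : μH[1] (S₀ ∪ segment ℝ q e) ≤ μH[1] W := hUe.1.2.2.2.2 W hWcl hWcon hWsub
    have c3 : μH[1] W ≤ μH[1] (S₀ ∪ segment ℝ q e) := by
      calc μH[1] W ≤ μH[1] (T \ G) + ENNReal.ofReal (dist z e) := hWH
        _ ≤ μH[1] (T \ G) + μH[1] (T ∩ F) := add_le_add_right (hsumle.trans hy1) _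
        _ ≤ μH[1] T := hsplit
        _ ≤ _ := c1
    have c4 : μH[1] (T ∩ F) ≤ ENNReal.ofReal (dist z e) := by
      have : μH[1] (T \ G) + μH[1] (T ∩ F) ≤ μH[1] (T \ G) + ENNReal.ofReal (dist z e) :=
        hsplit.trans (c1.trans (c2.trans hWH))
      exact (ENNReal.add_le_add_iff_left hTG_ne).mp this
    have c5 : T ∩ F = segment ℝ z y ∪ segment ℝ y p₁ ∪ segment ℝ y p₂ := hy2 (c4.trans hsumle)
    have c6 : dist z y + dist y p₁ + dist y p₂ ≤ dist z e :=
      (ENNReal.ofReal_le_ofReal_iff dist_nonneg).mp (hy1.trans c4)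
    have hWS : W = S₀ ∪ segment ℝ q e := by
      refine hUe.2 W ⟨hWcl, hWcon, hWsub, lt_of_le_of_lt c3 hUe.1.2.2.2.1, fun X h1 h2 h3 => ?_⟩
      exact c3.trans (hUe.1.2.2.2.2 X h1 h2 h3)
    -- `z = q - τ u`
    have hzq : z = q - τ • u := by
      have hzW : z ∈ S₀ ∪ segment ℝ q e := by rw [← hWS]; exact Or.inl ⟨hzT, hzG⟩
      rcases hzW with h | h
      · have h1 : z ∈ S₀ ∩ closedBall q (2 * δ) := ⟨h, by rw [mem_closedBall]; linarith⟩
        rw [hloc, mem_segm (by positivity)] at h1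
        obtain ⟨σ, hσ, h2⟩ := h1
        have : σ = τ := by
          rw [← hzτ, h2, sub_sub_cancel, real_inner_smul_left, real_inner_self_eq_norm_sq, hu]
          ring
        rw [h2, this]
      · obtain ⟨σ, hσ, h2⟩ := hqe z h
        exfalso
        rw [h2, lev_add q u u hu, real_inner_self_eq_norm_sq, hu] at hzτ
        linarith [hσ.1]
    have hze : dist z e = τ + s + M := by
      rw [hzq, he, dist_eq_norm]
      have : q - τ • u - (q + (s + M) • u) = -((τ + s + M) • u) := by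
        rw [add_smul, add_smul, add_smul]; abel
      rw [this, norm_neg, norm_smul, hu, mul_one, Real.norm_of_nonneg (by positivity)]
    have hyq : y = q := by
      refine tripod_eq (τ := τ) (s := s) (M := M) hu ht hv htv ?_
      rw [← hzq, ← hze]
      exact c6
    rw [hyq, hzq] at c5
    have hseg : segment ℝ (q - τ • u) q ⊆ S₀ := by
      intro x hx
      rw [mem_segm hτ0.le] at hx
      obtain ⟨σ, hσ, rfl⟩ := hx
      have : q - σ • u ∈ S₀ ∩ closedBall q (2 * δ) := by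
        rw [hloc, mem_segm (by positivity)]
        exact ⟨σ, ⟨hσ.1, by linarith [hσ.2]⟩, rfl⟩
      exact this.1
    apply Subset.antisymm
    · intro x hx
      by_cases hxF : x ∈ F
      · have h1 : x ∈ T ∩ F := ⟨hx, hxF⟩
        rw [c5] at h1
        rcases h1 with (h1 | h1) | h1
        · exact Or.inl (Or.inl (hseg h1))
        · exact Or.inl (Or.inr h1)
        · exact Or.inr h1
      · have h1 : x ∈ W := Or.inl ⟨hx, fun h => hxF (hGF h)⟩
        rw [hWS] at h1
        rcases h1 with h1 | h1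
        · exact Or.inl (Or.inl h1)
        · exfalso
          obtain ⟨σ, hσ, h2⟩ := hqe x h1
          apply hxF
          refine ⟨?_, ?_⟩
          · rw [h2, dist_eq_norm, add_sub_cancel_left, norm_smul, hu, mul_one,
              Real.norm_of_nonneg hσ.1]
            linarith [hσ.2]
          · rw [h2, lev_add q u u hu, real_inner_self_eq_norm_sq, hu]
            linarith [hσ.1]
    · have hTFsub : segment ℝ (q - τ • u) q ∪ segment ℝ q p₁ ∪ segment ℝ q p₂ ⊆ T := by
        rw [← c5]; exact inter_subset_left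
      rintro x ((hx | hx) | hx)
      · have h1 : x ∈ W := by rw [hWS]; exact Or.inl hx
        rcases h1 with h1 | h1
        · exact h1.1
        · have h2 : segment ℝ z e = segment ℝ (q + (-τ) • u) (q + (s + M) • u) := by
            rw [hzq, neg_smul, ← sub_eq_add_neg]
          rw [h2, mem_seg (by linarith)] at h1
          obtain ⟨σ, hσ, h3⟩ := h1
          have h4 : x ∈ S₀ ∩ closedBall q (2 * δ) := by
            refine ⟨hx, ?_⟩
            rw [mem_closedBall, h3, dist_eq_norm, add_sub_cancel_left, norm_smul, hu, mul_one,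
              Real.norm_eq_abs, abs_le]
            constructor <;> linarith [hσ.1, hσ.2]
          rw [hloc, mem_segm (by positivity)] at h4
          obtain ⟨σ', hσ', h5⟩ := h4
          apply hTFsub
          left; left
          rw [mem_segm hτ0.le]
          refine ⟨σ', ⟨hσ'.1, ?_⟩, h5⟩
          have h6 : ⟪q - x, u⟫_ℝ = σ' := by
            rw [h5, sub_sub_cancel, real_inner_smul_left, real_inner_self_eq_norm_sq, hu]; ring
          have h7 : ⟪q - x, u⟫_ℝ = -σ := by
            rw [h3, lev_add q u u hu, real_inner_self_eq_norm_sq, hu]; ring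
          linarith [hσ.1]
      · exact hTFsub (Or.inl (Or.inr hx))
      · exact hTFsub (Or.inr hx)
  obtain ⟨T, hTS⟩ := hE (insert p₁ (insert p₂ A₀)) ((hfin.insert _).insert _) (insert_nonempty _ _)
  have hTeq := key T hTS
  exact ⟨hTeq ▸ hTS, key⟩

end Pool.Agent.K7.H25.SB
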