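import Pool.Agent.R154.Steiner.Min

/-!
# MP_8790b5_co, Q1: statements of the jobs (helper25)

`N_d = ∞` for every `d ≥ 2`.
-/

set_option autoImplicit false

open scoped MeasureTheory ENNReal Topology InnerProductSpace
open MeasureTheory Set Filter Metric

namespace Pool.Agent.K7.H25.SB

open Pool.Agent.R154.Steiner

/-- the Euclidean plane -/
abbrev Pl := EuclideanSpace ℝ (Fin 2)

/-- `S` is the only Steiner tree for `A`. -/
def Uniq (A S : Set Pl) : Prop := IsSteinerTree A S ∧ ∀ T : Set Pl, IsSteinerTree A T → T = S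

/-- Steiner trees exist for finite sets. -/
def StExist : Prop := ∀ A : Set Pl, A.Finite → A.Nonempty → ∃ S, IsSteinerTree A S

/-- J1: two points on each level give twice the length. -/
def StTwo : Prop :=
  ∀ (T : Set Pl) (f : Pl → ℝ) (a b : ℝ), IsCompact T → LipschitzWith 1 f →
    (∀ τ ∈ Ioo a b, ∃ x ∈ T, ∃ y ∈ T, x ≠ y ∧ f x = τ ∧ f y = τ) →
    ENNReal.ofReal (2 * (b - a)) ≤ μH[1] (T ∩ f ⁻¹' Ioo a b)

/-- cutting a connected set at a single point -/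
def StCut : Prop :=
  ∀ (T F G : Set Pl) (z : Pl), IsClosed T → IsPreconnected T → IsOpen G → IsClosed F → G ⊆ F →
    T ∩ (F \ G) = {z} → IsPreconnected (T ∩ F) ∧ IsPreconnected (T \ G)

/-- replacing the part of `T` in `V` by the connected set `K` -/
def StSurg : Prop :=
  ∀ (T K V F : Set Pl), IsClosed T → IsPreconnected T → IsOpen V → IsClosed F → V ⊆ F →
    IsClosed K → IsPreconnected K → K.Nonempty → T ∩ (F \ V) ⊆ K → (T ∩ F).Nonempty →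
    IsPreconnected ((T \ V) ∪ K)

/-- J2: a Steiner tree that is close to a segment `[q - 2 δ u, q]` in the disc `|x - q| ≤ δ` has a
level `⟪q - x, u⟫ = τ` with a single point. -/
def StSingle : Prop :=
  ∀ (A T : Set Pl) (q u w : Pl) (δ r a b : ℝ), IsSteinerTree A T → ‖u‖ = 1 → ‖w‖ = 1 →
    ⟪u, w⟫_ℝ = 0 → 0 < r → r < a → a < b → b + 2 * r < δ → 4 * r < b - a →
    (∀ x ∈ A, dist x q ≤ δ → ⟪q - x, u⟫_ℝ < a) →
    (∀ x ∈ T, dist x q ≤ δ → ∃ σ ∈ Icc 0 (2 * δ), dist x (q - σ • u) ≤ r) →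
    (∃ x ∈ T, dist x q < δ ∧ ⟪q - x, u⟫_ℝ < a) → (∃ x ∈ T, δ < dist x q) →
    ∃ τ ∈ Ioo a b, ∃ z, T ∩ {x | dist x q ≤ δ ∧ ⟪q - x, u⟫_ℝ = τ} = {z}

/-- J3: three points in a connected compact set `K`: a junction `y`, with the case of equality. -/
def StTri : Prop :=
  ∀ (K : Set Pl) (z p₁ p₂ : Pl), IsCompact K → IsPreconnected K → μH[1] K ≠ ⊤ →
    z ∈ K → p₁ ∈ K → p₂ ∈ K →
    ∃ y, ENNReal.ofReal (dist z y + dist y p₁ + dist y p₂) ≤ μH[1] K ∧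
      (μH[1] K ≤ ENNReal.ofReal (dist z y + dist y p₁ + dist y p₂) →
        K = segment ℝ z y ∪ segment ℝ y p₁ ∪ segment ℝ y p₂)

/-- J4: Steiner trees of `A₀ ∪ {p₁, p₂}` are close to the unique Steiner tree of `A₀ ∪ {q}` if `p₁`
and `p₂` are close to `q`. -/
def StNear : Prop :=
  ∀ (A₀ S : Set Pl) (q : Pl), A₀.Finite → Uniq (insert q A₀) S → ∀ r : ℝ, 0 < r →
    ∃ η : ℝ, 0 < η ∧ ∀ p₁ p₂ : Pl, dist p₁ q < η → dist p₂ q < η → ∀ T : Set Pl,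
      IsSteinerTree (insert p₁ (insert p₂ A₀)) T → ∀ x ∈ T, ∃ y ∈ S, dist x y ≤ r

/-- Melzak's inequality -/
def StMel : Prop :=
  ∀ (q u t v z y : Pl) (s M : ℝ), ‖u‖ = 1 → ‖t‖ = 1 → ‖v‖ = 1 → t + v = u → 0 ≤ s → 0 ≤ M →
    dist z (q + (s + M) • u) ≤ dist z y + dist y (q + s • t) + dist y (q + M • v)

/-- the last edge may be shortened -/
def StTrunc : Prop :=
  ∀ (A₀ S₀ : Set Pl) (q u : Pl) (κ δ l : ℝ), ‖u‖ = 1 → 0 < κ → κ ≤ δ → 0 ≤ l → l ≤ κ →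
    IsClosed S₀ → IsConnected S₀ → A₀ ⊆ S₀ →
    S₀ ∩ closedBall q (2 * δ) = segment ℝ (q - (2 * δ) • u) q →
    Uniq (insert (q + κ • u) A₀) (S₀ ∪ segment ℝ q (q + κ • u)) →
    Uniq (insert (q + l • u) A₀) (S₀ ∪ segment ℝ q (q + l • u))

/-- J5: branching at the end of the last edge -/
def StStep : Prop :=
  ∀ (A₀ S₀ : Set Pl) (q u t v : Pl) (κ δ : ℝ), A₀.Finite → A₀.Nonempty →
    ‖u‖ = 1 → ‖t‖ = 1 → ‖v‖ = 1 → t + v = u → 0 < κ → κ ≤ δ →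
    IsClosed S₀ → IsConnected S₀ → A₀ ⊆ S₀ → (∀ x ∈ A₀, 2 * δ < dist x q) →
    S₀ ∩ closedBall q (2 * δ) = segment ℝ (q - (2 * δ) • u) q →
    Uniq (insert (q + κ • u) A₀) (S₀ ∪ segment ℝ q (q + κ • u)) →
    ∃ η : ℝ, 0 < η ∧ ∀ s M : ℝ, 0 < s → s < η → 0 < M → M < η →
      Uniq (insert (q + s • t) (insert (q + M • v) A₀))
        (S₀ ∪ segment ℝ q (q + s • t) ∪ segment ℝ q (q + M • v))

/-- `S` is near `b` a union of at least three segments with the common endpoint `b`. -/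
def Br {E : Type*} [NormedAddCommGroup E] [NormedSpace ℝ E] (S : Set E) (b : E) : Prop :=
  ∃ (F : Finset E) (r : ℝ), 3 ≤ F.card ∧ (∀ v ∈ F, ‖v‖ = 1) ∧ 0 < r ∧
    S ∩ ball b r = (⋃ v ∈ F, segment ℝ b (b + r • v)) ∩ ball b r

/-- the induction hypothesis: the tree is `S₀ ∪ [q, q + κ u]`, the disc has the centre `q - n`, and
`B` is the set of the branching points -/
structure State (A₀ S₀ : Set Pl) (q u n : Pl) (κ δ : ℝ) (B : Finset Pl) : Prop where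
  fin : A₀.Finite
  ne : A₀.Nonempty
  hu : ‖u‖ = 1
  hn : ‖n‖ = 1
  hun : ⟪u, n⟫_ℝ = Real.sqrt 3 / 2
  κpos : 0 < κ
  κle : κ ≤ δ
  cl : IsClosed S₀
  con : IsConnected S₀
  sub : A₀ ⊆ S₀
  far : ∀ x ∈ A₀, 2 * δ < dist x q
  loc : S₀ ∩ closedBall q (2 * δ) = segment ℝ (q - (2 * δ) • u) q
  uniq : Uniq (insert (q + κ • u) A₀) (S₀ ∪ segment ℝ q (q + κ • u))
  out : ∀ x ∈ A₀, 1 < dist x (q - n)
  br : ∀ b ∈ B, dist b (q - n) < 1 ∧ Br S₀ b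

/-- `Br` only depends on the set near `b` -/
def StBr : Prop := ∀ (S S' : Set Pl) (b : Pl) (ρ : ℝ), Br S b → 0 < ρ →
  S' ∩ ball b ρ = S ∩ ball b ρ → Br S' b

/-- J6: the start -/
def StBase : Prop := ∃ (A₀ S₀ : Set Pl) (q u n : Pl) (κ δ : ℝ), State A₀ S₀ q u n κ δ ∅

/-- J7: the induction step -/
def StInd : Prop :=
  ∀ (A₀ S₀ : Set Pl) (q u n : Pl) (κ δ : ℝ) (B : Finset Pl), State A₀ S₀ q u n κ δ B →
    ∃ (A₀' S₀' : Set Pl) (q' u' : Pl) (κ' δ' : ℝ) (B' : Finset Pl),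
      State A₀' S₀' q' u' n κ' δ' B' ∧ B'.card = B.card + 1

/-- J8: many branching points in the plane, for one disc -/
def StPlane : Prop :=
  ∀ N : ℕ, ∃ (A S : Set Pl) (c : Pl) (B : Finset Pl), A.Finite ∧ IsSteinerTree A S ∧
    A ∩ ball c 1 = ∅ ∧ N ≤ B.card ∧ ∀ b ∈ B, b ∈ ball c 1 ∧ b ∈ S ∧ Br S b

/-- J9: the same in all dimensions -/
def StAll : Prop :=
  ∀ (d : ℕ), 2 ≤ d → ∀ N : ℕ, ∃ (A S : Set (EuclideanSpace ℝ (Fin d)))
    (c : EuclideanSpace ℝ (Fin d)) (B : Finset (EuclideanSpace ℝ (Fin d))), A.Finite ∧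
    IsSteinerTree A S ∧ A ∩ ball c 1 = ∅ ∧ N ≤ B.card ∧ ∀ b ∈ B, b ∈ ball c 1 ∧ b ∈ S ∧ Br S b

end Pool.Agent.K7.H25.SB
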