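import Pool.Agent.K7.H25.SB.Stm

set_option autoImplicit false

open scoped MeasureTheory ENNReal Topology InnerProductSpace
open MeasureTheory Set Filter Metric

namespace Pool.Agent.K7.H25.SB

open Pool.Agent.R154.Steiner

lemma mem_seg {E : Type*} [NormedAddCommGroup E] [NormedSpace ℝ E] {q u x : E} {α β : ℝ}
    (h : α ≤ β) :
    x ∈ segment ℝ (q + α • u) (q + β • u) ↔ ∃ σ ∈ Icc α β, x = q + σ • u := by
  have hf : ∀ σ : ℝ, AffineMap.lineMap (k := ℝ) q (q + u) σ = q + σ • u := by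
    intro σ
    rw [AffineMap.lineMap_apply]
    simp [add_comm]
  rw [← hf α, ← hf β, ← image_segment ℝ (AffineMap.lineMap (k := ℝ) q (q + u)), segment_eq_Icc h]
  constructor
  · rintro ⟨σ, hσ, rfl⟩
    exact ⟨σ, hσ, hf σ⟩
  · rintro ⟨σ, hσ, rfl⟩
    exact ⟨σ, hσ, hf σ⟩

lemma mem_seg0 {E : Type*} [NormedAddCommGroup E] [NormedSpace ℝ E] {q u x : E} {β : ℝ}
    (h : 0 ≤ β) :
    x ∈ segment ℝ q (q + β • u) ↔ ∃ σ ∈ Icc 0 β, x = q + σ • u := by
  have := mem_seg (q := q) (u := u) (x := x) h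
  simpa using this

lemma mem_segm {E : Type*} [NormedAddCommGroup E] [NormedSpace ℝ E] {q u x : E} {β : ℝ}
    (h : 0 ≤ β) :
    x ∈ segment ℝ (q - β • u) q ↔ ∃ σ ∈ Icc 0 β, x = q - σ • u := by
  have := mem_seg (q := q) (u := u) (x := x) (α := -β) (β := 0) (by linarith)
  rw [neg_smul, ← sub_eq_add_neg, zero_smul, add_zero] at this
  rw [this]
  constructor
  · rintro ⟨σ, hσ, rfl⟩
    exact ⟨-σ, ⟨by linarith [hσ.2], by linarith [hσ.1]⟩, by rw [neg_smul, sub_neg_eq_add]⟩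
  · rintro ⟨σ, hσ, rfl⟩
    exact ⟨-σ, ⟨by linarith [hσ.2], by linarith [hσ.1]⟩, by rw [neg_smul, sub_eq_add_neg]⟩

lemma isClosed_seg {E : Type*} [NormedAddCommGroup E] [NormedSpace ℝ E] (x y : E) :
    IsClosed (segment ℝ x y) := by
  rw [segment_eq_image_lineMap]
  exact (isCompact_Icc.image AffineMap.lineMap_continuous).isClosed

lemma conn_seg {E : Type*} [NormedAddCommGroup E] [NormedSpace ℝ E] (x y : E) :
    IsConnected (segment ℝ x y) :=
  ⟨⟨x, left_mem_segment ℝ x y⟩, (convex_segment x y).isPreconnected⟩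

lemma H_seg (x y : Pl) : μH[1] (segment ℝ x y) = ENNReal.ofReal (dist x y) := by
  rw [hausdorffMeasure_segment, edist_dist]

end Pool.Agent.K7.H25.SB
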